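import Pool.Agent.R489.HB.Stm

/-!
# Contraction of an edge: every cycle bounds (piece `CONS` of project HB)
-/

set_option autoImplicit false

namespace Pool.Agent.R888.HB

open Finset Pool.Agent.R489.HB

section

variable {W : Type} [DecidableEq W]

theorem mem_edg {Φ : Finset (Finset W)} {e : Finset W} :
    e ∈ edg Φ ↔ ∃ f ∈ Φ, e ⊆ f ∧ e.card = 2 := by
  unfold edg
  simp only [mem_biUnion, mem_powersetCard]

theorem mem_mv {u v w : W} (hu : w ≠ u) (hv : w ≠ v) (e : Finset W) :
    w ∈ mv u v e ↔ w ∈ e := by
  unfold mv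
  split_ifs with h
  · simp [hu, hv]
  · rfl

theorem u_mem_mv {u v : W} (_huv : u ≠ v) (e : Finset W) :
    u ∈ mv u v e ↔ u ∈ e ∨ v ∈ e := by
  unfold mv
  split_ifs with h
  · simp [h]
  · simp [h]

theorem v_mem_mv {u v : W} (huv : u ≠ v) (e : Finset W) : v ∉ mv u v e := by
  unfold mv
  split_ifs with h
  · simp [huv.symm]
  · exact h

theorem mv_of_notMem {u v : W} {e : Finset W} (h : v ∉ e) : mv u v e = e := by
  unfold mv
  rw [if_neg h]

theorem not_both {u v : W} (huv : u ≠ v) {e : Finset W} (h2 : e.card = 2) (hne : e ≠ {u, v}) :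
    ¬ (u ∈ e ∧ v ∈ e) := by
  rintro ⟨h1, h3⟩
  apply hne
  symm
  apply Finset.eq_of_subset_of_card_le
  · intro x hx
    rcases Finset.mem_insert.1 hx with rfl | hx
    · exact h1
    · rw [Finset.mem_singleton.1 hx]; exact h3
  · rw [h2, Finset.card_pair huv]

end

theorem CONS : S_APEX → S_CNT → S_CONE → S_CONS := by
  intro hA hC hE W _ Φ u v hΦ huv huve hG h5 Z hZ hZe
  obtain ⟨y1, y2, g1, g2, h1, h2, hapx⟩ := hA W Φ u v hΦ huv huve hG h5
  obtain ⟨-, hedge⟩ := hE W Φ u v hΦ huv huve hG h5
  have hcard : ∀ e ∈ edg Φ, e.card = 2 := fun e he => by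
    obtain ⟨f, -, -, h⟩ := mem_edg.1 he
    exact h
  have hcard' : ∀ e ∈ edg (contr u v Φ), e.card = 2 := fun e he => by
    obtain ⟨f, -, -, h⟩ := mem_edg.1 he
    exact h
  -- the section
  have hsec : ∀ e' : Finset W, ∃ e : Finset W, e' ∈ edg (contr u v Φ) →
      e ∈ edg Φ ∧ e ≠ {u, v} ∧ mv u v e = e' := by
    intro e'
    by_cases he : e' ∈ edg (contr u v Φ)
    · have h := he
      rw [hedge] at h
      obtain ⟨e, he1, he2⟩ := Finset.mem_image.1 h
      exact ⟨e, fun _ => ⟨(Finset.mem_erase.1 he1).2, (Finset.mem_erase.1 he1).1, he2⟩⟩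
    · exact ⟨∅, fun h => absurd h he⟩
  choose L hL using hsec
  have hL1 : ∀ e' ∈ Z, L e' ∈ edg Φ := fun e' h => (hL e' (hZ h)).1
  have hL2 : ∀ e' ∈ Z, L e' ≠ {u, v} := fun e' h => (hL e' (hZ h)).2.1
  have hL3 : ∀ e' ∈ Z, mv u v (L e') = e' := fun e' h => (hL e' (hZ h)).2.2
  have hLinj : Set.InjOn L (Z : Set (Finset W)) := by
    intro a ha b hb hab
    rw [← hL3 a ha, ← hL3 b hb, hab]
  set Z0 := Z.image L with hZ0
  have hZ0m : ∀ e, e ∈ Z0 ↔ mv u v e ∈ Z ∧ L (mv u v e) = e := by
    intro e
    rw [hZ0, Finset.mem_image]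
    constructor
    · rintro ⟨a, ha, rfl⟩
      rw [hL3 a ha]
      exact ⟨ha, rfl⟩
    · rintro ⟨h1, h2⟩
      exact ⟨_, h1, h2⟩
  have hZ0E : Z0 ⊆ edg Φ := by
    intro e he
    obtain ⟨a, ha, rfl⟩ := Finset.mem_image.1 he
    exact hL1 a ha
  have hZ0n : ({u, v} : Finset W) ∉ Z0 := by
    intro he
    obtain ⟨a, ha, h⟩ := Finset.mem_image.1 he
    exact hL2 a ha h
  -- degrees
  have hdeg : ∀ w, w ≠ u → w ≠ v → Even (Z0.filter (fun e => w ∈ e)).card := by
    intro w hwu hwv
    have h1 : Z0.filter (fun e => w ∈ e) = (Z.filter (fun e => w ∈ e)).image L := by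
      ext e
      rw [Finset.mem_filter, hZ0, Finset.mem_image, Finset.mem_image]
      constructor
      · rintro ⟨⟨a, ha, rfl⟩, hw⟩
        refine ⟨a, Finset.mem_filter.2 ⟨ha, ?_⟩, rfl⟩
        rw [← hL3 a ha, mem_mv hwu hwv]
        exact hw
      · rintro ⟨a, ha, rfl⟩
        obtain ⟨ha1, ha2⟩ := Finset.mem_filter.1 ha
        refine ⟨⟨a, ha1, rfl⟩, ?_⟩
        rw [← hL3 a ha1, mem_mv hwu hwv] at ha2
        exact ha2
    rw [h1, Finset.card_image_of_injOn (hLinj.mono (Finset.coe_subset.2 (Finset.filter_subset _ _)))]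
    exact hZe w
  have hdeguv : (Z0.filter (fun e => u ∈ e)).card + (Z0.filter (fun e => v ∈ e)).card =
      (Z.filter (fun e => u ∈ e)).card := by
    have hdisj : Disjoint (Z0.filter (fun e => u ∈ e)) (Z0.filter (fun e => v ∈ e)) := by
      rw [Finset.disjoint_left]
      intro e he1 he2
      obtain ⟨h1, h2⟩ := Finset.mem_filter.1 he1
      obtain ⟨-, h3⟩ := Finset.mem_filter.1 he2
      exact not_both huv (hcard e (hZ0E h1)) (fun h => hZ0n (h ▸ h1)) ⟨h2, h3⟩
    rw [← Finset.card_union_of_disjoint hdisj]
    have h1 : Z0.filter (fun e => u ∈ e) ∪ Z0.filter (fun e => v ∈ e) =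
        (Z.filter (fun e => u ∈ e)).image L := by
      ext e
      rw [Finset.mem_union, Finset.mem_filter, Finset.mem_filter, ← and_or_left,
        hZ0, Finset.mem_image, Finset.mem_image]
      constructor
      · rintro ⟨⟨a, ha, rfl⟩, hw⟩
        refine ⟨a, Finset.mem_filter.2 ⟨ha, ?_⟩, rfl⟩
        rw [← hL3 a ha, u_mem_mv huv]
        exact hw
      · rintro ⟨a, ha, rfl⟩
        obtain ⟨ha1, ha2⟩ := Finset.mem_filter.1 ha
        refine ⟨⟨a, ha1, rfl⟩, ?_⟩
        rw [← hL3 a ha1, u_mem_mv huv] at ha2
        exact ha2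
    rw [h1, Finset.card_image_of_injOn (hLinj.mono (Finset.coe_subset.2 (Finset.filter_subset _ _)))]
  have hZ1 : ∃ Z1 ⊆ edg Φ, (∀ w : W, Even (Z1.filter (fun e => w ∈ e)).card) ∧
      ∀ e, e ≠ {u, v} → (e ∈ Z1 ↔ e ∈ Z0) := by
    have hsum : Even ((Z0.filter (fun e => u ∈ e)).card + (Z0.filter (fun e => v ∈ e)).card) := by
      rw [hdeguv]; exact hZe u
    by_cases hev : Even (Z0.filter (fun e => u ∈ e)).card
    · refine ⟨Z0, hZ0E, fun w => ?_, fun e _ => Iff.rfl⟩
      by_cases hwu : w = u
      · rw [hwu]; exact hev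
      by_cases hwv : w = v
      · rw [hwv]; exact (Nat.even_add.1 hsum).1 hev
      exact hdeg w hwu hwv
    · refine ⟨insert {u, v} Z0, ?_, fun w => ?_, fun e he => ?_⟩
      · intro e he
        rcases Finset.mem_insert.1 he with rfl | he
        · exact huve
        · exact hZ0E he
      · rw [Finset.filter_insert]
        by_cases hw : w ∈ ({u, v} : Finset W)
        · rw [if_pos hw, Finset.card_insert_of_notMem
            (fun h => hZ0n (Finset.mem_filter.1 h).1), Nat.even_add_one]
          rcases Finset.mem_insert.1 hw with rfl | hw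
          · exact hev
          · rw [Finset.mem_singleton.1 hw]
            intro h
            exact hev ((Nat.even_add.1 hsum).2 h)
        · rw [if_neg hw]
          apply hdeg
          · rintro rfl; exact hw (Finset.mem_insert_self _ _)
          · rintro rfl; exact hw (Finset.mem_insert_of_mem (Finset.mem_singleton_self _))
      · rw [Finset.mem_insert]
        constructor
        · rintro (h | h)
          · exact absurd h he
          · exact h
        · exact fun h => Or.inr h
  obtain ⟨Z1, hZ1E, hZ1e, hZ1m⟩ := hZ1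
  obtain ⟨Q, hQ, hQZ⟩ := hΦ.sph Z1 hZ1E hZ1e
  have hodd : ∀ e : Finset W, e.card = 2 → (Odd (fc Q e).card ↔ e ∈ Z1) := by
    intro e he
    by_cases h : e ∈ edg Φ
    · exact (hQZ e h).symm
    · have h1 : fc Q e = ∅ := by
        unfold fc
        rw [Finset.filter_eq_empty_iff]
        intro f hf hef
        exact h (mem_edg.2 ⟨f, hQ hf, hef, he⟩)
      rw [h1, Finset.card_empty]
      constructor
      · intro h2
        exact absurd h2 (by decide)
      · intro h2
        exact absurd (hZ1E h2) h
  set P := Q.filter (fun f => ¬ ({u, v} ⊆ f)) with hP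
  have hPs : ∀ f ∈ P, f ∈ Φ ∧ ¬ ({u, v} ⊆ f) := fun f hf =>
    ⟨hQ (Finset.mem_filter.1 hf).1, (Finset.mem_filter.1 hf).2⟩
  refine ⟨P.image (mv u v), ?_, ?_⟩
  · unfold contr
    apply Finset.image_subset_image
    intro f hf
    exact Finset.mem_filter.2 (hPs f hf)
  intro e' he'
  have hve : v ∉ e' := by
    rw [← (hL e' he').2.2]
    exact v_mem_mv huv _
  have he2 : e'.card = 2 := hcard' e' he'
  obtain ⟨hc1, hc2⟩ := hC W P u v e' huv (fun f hf => (hPs f hf).2)
    (hapx.inj.mono (fun f hf => hPs f hf)) hve he2
  have hmve : mv u v e' = e' := mv_of_notMem hve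
  by_cases hue : u ∈ e'
  · -- the edge contains `u`
    rw [hc2 hue]
    set e2 := insert v (e'.erase u) with he2d
    have hve2 : v ∈ e2 := Finset.mem_insert_self _ _
    have hue2 : u ∉ e2 := by
      rw [he2d, Finset.mem_insert]
      rintro (h | h)
      · exact huv h
      · exact Finset.notMem_erase _ _ h
    have hve' : v ∉ e'.erase u := fun h => hve (Finset.mem_of_mem_erase h)
    have he2c : e2.card = 2 := by
      rw [he2d, Finset.card_insert_of_notMem hve', Finset.card_erase_of_mem hue, he2]
    have hmve2 : mv u v e2 = e' := by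
      unfold mv
      rw [if_pos hve2, he2d, Finset.erase_insert hve', Finset.insert_erase hue]
    have hn1 : e' ≠ {u, v} := by
      rintro h
      apply hve
      rw [h]
      simp
    have hn2 : e2 ≠ {u, v} := by
      rintro h
      apply hue2
      rw [h]
      simp
    have hne : e' ≠ e2 := fun h => hve (h ▸ hve2)
    -- parity
    have hpar : (fc Q e').card + (fc Q e2).card =
        ((fc P e').card + (fc P e2).card) + 2 * (Q.filter (fun f => f = insert v e')).card := by
      have hsplit : ∀ a : Finset W, (∀ f ∈ Q, (a ⊆ f ∧ {u, v} ⊆ f ↔ f = insert v e')) →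
          (fc Q a).card = (fc P a).card + (Q.filter (fun f => f = insert v e')).card := by
        intro a ha
        have h1 := Finset.card_filter_add_card_filter_not (s := fc Q a)
          (fun f => ¬ ({u, v} ⊆ f))
        have h2 : (fc Q a).filter (fun f => ¬ ({u, v} ⊆ f)) = fc P a := by
          unfold fc
          rw [hP, Finset.filter_filter, Finset.filter_filter]
          apply Finset.filter_congr
          intro f _
          exact and_comm
        have h3 : (fc Q a).filter (fun f => ¬ ¬ ({u, v} ⊆ f)) =
            Q.filter (fun f => f = insert v e') := by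
          unfold fc
          rw [Finset.filter_filter]
          apply Finset.filter_congr
          intro f hf
          rw [not_not]
          exact ha f hf
        rw [h2, h3] at h1
        exact h1.symm
      have hins : (insert v e').card = 3 := by
        rw [Finset.card_insert_of_notMem hve, he2]
      have ha1 : ∀ f ∈ Q, (e' ⊆ f ∧ {u, v} ⊆ f ↔ f = insert v e') := by
        intro f hf
        constructor
        · rintro ⟨h1, h2⟩
          symm
          apply Finset.eq_of_subset_of_card_le
          · intro x hx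
            rcases Finset.mem_insert.1 hx with rfl | hx
            · exact h2 (by simp)
            · exact h1 hx
          · rw [hins, hΦ.three f (hQ hf)]
        · rintro rfl
          refine ⟨Finset.subset_insert _ _, ?_⟩
          intro x hx
          rcases Finset.mem_insert.1 hx with rfl | hx
          · exact Finset.mem_insert_of_mem hue
          · rw [Finset.mem_singleton.1 hx]; exact Finset.mem_insert_self _ _
      have ha2 : ∀ f ∈ Q, (e2 ⊆ f ∧ {u, v} ⊆ f ↔ f = insert v e') := by
        intro f hf
        rw [← ha1 f hf]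
        constructor
        · rintro ⟨h1, h2⟩
          refine ⟨?_, h2⟩
          intro x hx
          by_cases hxu : x = u
          · rw [hxu]; exact h2 (by simp)
          · exact h1 (Finset.mem_insert_of_mem (Finset.mem_erase.2 ⟨hxu, hx⟩))
        · rintro ⟨h1, h2⟩
          refine ⟨?_, h2⟩
          intro x hx
          rcases Finset.mem_insert.1 hx with rfl | hx
          · exact h2 (by simp)
          · exact h1 (Finset.mem_of_mem_erase hx)
      rw [hsplit e' ha1, hsplit e2 ha2]
      ring
    have hpar2 : Odd ((fc P e').card + (fc P e2).card) ↔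
        Odd ((fc Q e').card + (fc Q e2).card) := by
      rw [hpar, Nat.odd_add, Nat.odd_add]
      simp only [even_two_mul, iff_true]
      rw [Nat.odd_add]
    rw [hpar2, Nat.odd_add, ← Nat.not_odd_iff_even, hodd e' he2, hodd e2 he2c, hZ1m e' hn1,
      hZ1m e2 hn2, hZ0m, hZ0m, hmve, hmve2]
    by_cases hz : e' ∈ Z
    · have hcase : L e' = e' ∨ L e' = e2 := by
        have h1 := hL3 e' hz
        by_cases hv : v ∈ L e'
        · right
          have h2 : u ∉ L e' := fun h =>
            not_both huv (hcard _ (hL1 e' hz)) (hL2 e' hz) ⟨h, hv⟩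
          have h3 : insert u ((L e').erase v) = e' := by
            unfold mv at h1
            rwa [if_pos hv] at h1
          have h4 : u ∉ (L e').erase v := fun h => h2 (Finset.mem_of_mem_erase h)
          have h5 : e'.erase u = (L e').erase v := by
            have h6 := congrArg (fun t : Finset W => t.erase u) h3
            rw [Finset.erase_insert h4] at h6
            exact h6.symm
          rw [he2d, h5, Finset.insert_erase hv]
        · left
          rw [mv_of_notMem hv] at h1
          exact h1
      rcases hcase with h | h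
      · simp only [hz, h, hne, true_and, not_false_eq_true]
      · simp only [hz, h, true_and]
        have : e2 ≠ e' := fun h => hne h.symm
        simp [this]
    · simp [hz]
  · -- the edge avoids `u`
    rw [hc1 hue]
    have h1 : fc P e' = fc Q e' := by
      unfold fc
      rw [hP, Finset.filter_filter]
      apply Finset.filter_congr
      intro f hf
      constructor
      · exact fun h => h.2
      · intro h
        refine ⟨fun h2 => ?_, h⟩
        have h3 : e' ∪ {u, v} ⊆ f := Finset.union_subset h h2
        have h4 : (e' ∪ {u, v}).card = 4 := by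
          rw [Finset.card_union_of_disjoint, he2, Finset.card_pair huv]
          rw [Finset.disjoint_right]
          intro x hx
          rcases Finset.mem_insert.1 hx with rfl | hx
          · exact hue
          · rw [Finset.mem_singleton.1 hx]; exact hve
        have h5 := Finset.card_le_card h3
        rw [h4, hΦ.three f (hQ hf)] at h5
        omega
    rw [h1, hodd e' he2, hZ1m e' (by rintro h; apply hue; rw [h]; simp), hZ0m, hmve]
    constructor
    · intro hz
      refine ⟨hz, ?_⟩
      have h2 := hL3 e' hz
      have hv : v ∉ L e' := by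
        intro hv
        apply hue
        rw [← h2, u_mem_mv huv]
        exact Or.inr hv
      rw [mv_of_notMem hv] at h2
      exact h2
    · exact fun h => h.1

end Pool.Agent.R888.HB
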